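import Pool.Agent.H937.QS.Stm
import Pool.Agent.H413.RS.Indep

open scoped Matrix TensorProduct
open Pool.Agent.H937.QS
universe u
namespace Pool.Agent.H115.QS.IND

theorem DF_map {S S' : Type u} [CommRing S] [CommRing S'] (g : S →+* S') (a : Fin 12 → S)
    (i : Fin 4) : (DF a i).map g = DF (fun s => g (a s)) i := by
  have h2 : g 2 = 2 := map_ofNat g 2
  fin_cases i
  · change (1 : Matrix (Fin 4) (Fin 4) S).map g = 1
    exact Matrix.map_one g (map_zero g) (map_one g)
  · change (F1 (tt a) (pp a)).map g = F1 (tt fun s => g (a s)) (pp fun s => g (a s))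
    ext m l
    fin_cases m <;> fin_cases l <;> simp [F1, tt, pp, qq, h2]
  · change (F2 (tt a) (pp a)).map g = F2 (tt fun s => g (a s)) (pp fun s => g (a s))
    ext m l
    fin_cases m <;> fin_cases l <;> simp [F2, tt, pp, qq, h2]
  · change (F3 (tt a) (pp a)).map g = F3 (tt fun s => g (a s)) (pp fun s => g (a s))
    ext m l
    fin_cases m <;> fin_cases l <;> simp [F3, tt, pp, qq, h2]

/-- four generic points over the polynomial ring -/
noncomputable def TR (k : Type u) [Field k] :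
    Matrix (Fin 4) (Fin 4) (MvPolynomial (Fin 4 × Fin 3) k) :=
  Matrix.of fun q => Fin.cons 1 fun l => MvPolynomial.X (q, l)

theorem TR0 (k : Type u) [Field k] (q : Fin 4) : TR k q 0 = 1 := rfl

theorem TR1 (k : Type u) [Field k] (q : Fin 4) : TR k q 1 = MvPolynomial.X (q, 0) := rfl

theorem TR2 (k : Type u) [Field k] (q : Fin 4) : TR k q 2 = MvPolynomial.X (q, 1) := rfl

theorem TR3 (k : Type u) [Field k] (q : Fin 4) : TR k q 3 = MvPolynomial.X (q, 2) := rfl

theorem Tg_zero (k : Type u) [Field k] (q : Fin 4) : Tg k q 0 = 1 := rfl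

theorem Tg_succ (k : Type u) [Field k] (q : Fin 4) (l : Fin 3) :
    Tg k q l.succ = algebraMap (MvPolynomial (Fin 4 × Fin 3) k)
      (FractionRing (MvPolynomial (Fin 4 × Fin 3) k)) (MvPolynomial.X (q, l)) := rfl

theorem Tg_eq (k : Type u) [Field k] : Tg k = (TR k).map (algebraMap
    (MvPolynomial (Fin 4 × Fin 3) k) (FractionRing (MvPolynomial (Fin 4 × Fin 3) k))) := by
  ext q i
  refine Fin.cases ?_ ?_ i
  · change (1 : FractionRing (MvPolynomial (Fin 4 × Fin 3) k)) =
      algebraMap (MvPolynomial (Fin 4 × Fin 3) k) (FractionRing (MvPolynomial (Fin 4 × Fin 3) k)) 1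
    rw [map_one]
  · intro l
    rfl

theorem det_ne (k : Type u) [Field k]
    (B : Matrix (Fin 4) (Fin 4) (MvPolynomial (Fin 4 × Fin 3) k))
    (g : MvPolynomial (Fin 4 × Fin 3) k →+* k) (h : (B.map g).det ≠ 0) :
    (B.map (algebraMap (MvPolynomial (Fin 4 × Fin 3) k)
      (FractionRing (MvPolynomial (Fin 4 × Fin 3) k)))).det ≠ 0 := by
  have h1 : B.det ≠ 0 := by
    intro h0
    apply h
    have h2 := RingHom.map_det g B
    rw [h0, map_zero] at h2
    exact h2.symm
  have h3 := RingHom.map_det (algebraMap (MvPolynomial (Fin 4 × Fin 3) k)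
      (FractionRing (MvPolynomial (Fin 4 × Fin 3) k))) B
  intro h4
  have h5 : (algebraMap (MvPolynomial (Fin 4 × Fin 3) k)
      (FractionRing (MvPolynomial (Fin 4 × Fin 3) k))) B.det = 0 := h3.trans h4
  exact h1 ((map_eq_zero_iff _ (IsFractionRing.injective (MvPolynomial (Fin 4 × Fin 3) k)
    (FractionRing (MvPolynomial (Fin 4 × Fin 3) k)))).1 h5)

theorem det_Tg (k : Type u) [Field k] : (Tg k).det ≠ 0 := by
  rw [Tg_eq]
  apply det_ne k (TR k) (MvPolynomial.eval fun s => if s.1 = s.2.succ then (1 : k) else 0)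
  have h1 : (TR k).map (MvPolynomial.eval fun s => if s.1 = s.2.succ then (1 : k) else 0) =
      !![1, 0, 0, 0; 1, 1, 0, 0; 1, 0, 1, 0; 1, 0, 0, 1] := by
    ext q i
    rw [Matrix.map_apply]
    fin_cases q <;> fin_cases i <;> simp [TR0, TR1, TR2, TR3]
  rw [h1]
  simp [Matrix.det_succ_row_zero, Fin.sum_univ_succ, Fin.succAbove]

theorem pL_Tg (k : Type u) [Field k] : pL (sc (Tg k)) 2 ≠ 0 := by
  have h0 : pL (sc (Tg k)) 2 = - sc (Tg k) 0 1 3 := rfl
  rw [h0, neg_ne_zero]
  intro h1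
  have hu : IsUnit (Tg k).det := isUnit_iff_ne_zero.2 (det_Tg k)
  have h2 := Matrix.det_smul_inv_mulVec_eq_cramer (Tg k)
    (fun q => Tg k q (0 : Fin 3).succ * Tg k q (1 : Fin 3).succ) hu
  have h3 := congrFun h2 3
  rw [Matrix.cramer_apply, Pi.smul_apply] at h3
  have h4 : ((Tg k)⁻¹ *ᵥ fun q => Tg k q (0 : Fin 3).succ * Tg k q (1 : Fin 3).succ) 3 = 0 := h1
  rw [h4, smul_zero] at h3
  obtain ⟨B, hB0⟩ : ∃ B : Matrix (Fin 4) (Fin 4) (MvPolynomial (Fin 4 × Fin 3) k),
    B = (TR k).updateCol 3 fun q => MvPolynomial.X (q, 0) * MvPolynomial.X (q, 1) := ⟨_, rfl⟩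
  have hB : B.map (algebraMap (MvPolynomial (Fin 4 × Fin 3) k)
      (FractionRing (MvPolynomial (Fin 4 × Fin 3) k))) = (Tg k).updateCol 3
        (fun q => Tg k q (0 : Fin 3).succ * Tg k q (1 : Fin 3).succ) := by
    rw [Tg_eq, hB0]
    ext q i
    rw [Matrix.map_apply]
    by_cases hi : i = 3
    · subst hi
      rw [Matrix.updateCol_self, Matrix.updateCol_self, map_mul]
      rfl
    · rw [Matrix.updateCol_ne hi, Matrix.updateCol_ne hi, Matrix.map_apply]
  have h5 : (B.map (algebraMap (MvPolynomial (Fin 4 × Fin 3) k)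
      (FractionRing (MvPolynomial (Fin 4 × Fin 3) k)))).det ≠ 0 := by
    apply det_ne k B (MvPolynomial.eval fun s =>
      (!![0, 0, 0; 1, 0, 0; 0, 1, 0; 1, 1, 0] : Matrix (Fin 4) (Fin 3) k) s.1 s.2)
    have h6 : B.map (MvPolynomial.eval fun s =>
        (!![0, 0, 0; 1, 0, 0; 0, 1, 0; 1, 1, 0] : Matrix (Fin 4) (Fin 3) k) s.1 s.2) =
        !![1, 0, 0, 0; 1, 1, 0, 0; 1, 0, 1, 0; 1, 1, 1, 1] := by
      ext q i
      rw [Matrix.map_apply, hB0, Matrix.updateCol_apply]
      fin_cases q <;> fin_cases i <;> simp [TR0, TR1, TR2]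
    rw [h6]
    simp [Matrix.det_succ_row_zero, Fin.sum_univ_succ, Fin.succAbove]
  rw [hB] at h5
  exact h5 h3.symm

theorem t_IND (hSTR : S_STR.{u}) : S_IND.{u} := by
  intro k _
  refine ⟨det_Tg k, pL_Tg k, ?_⟩
  let F := FractionRing (MvPolynomial (Fin 4 × Fin 3) k)
  obtain ⟨hs, -, -⟩ := hSTR _ (Tg k) (Tg_zero k) (det_Tg k) (pL_Tg k)
  let e : Fin 4 × Fin 3 ≃ Fin 12 := finProdFinEquiv
  have key : AlgebraicIndependent k (par (Tg k) ∘ e) := by
    apply Pool.Agent.H413.RS.indep_of_algebraic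
    intro s
    let A : Subalgebra k F := Algebra.adjoin k (Set.range (par (Tg k) ∘ e))
    let aA : Fin 12 → A := fun j => ⟨par (Tg k) j, Algebra.subset_adjoin ⟨e.symm j, by
      change par (Tg k) (e (e.symm j)) = _
      rw [Equiv.apply_symm_apply]⟩⟩
    have hDF : (DF aA s.2.succ).map (algebraMap A F) = DF (par (Tg k)) s.2.succ := by
      rw [DF_map]
      rfl
    have hdet : (Matrix.scalar (Fin 4) (Tg k s.1 s.2.succ) - DF (par (Tg k)) s.2.succ).det = 0 := by
      rw [← Matrix.exists_vecMul_eq_zero_iff]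
      refine ⟨fun m => Tg k s.1 m, ?_, ?_⟩
      · intro h
        have h1 := congrFun h 0
        exact one_ne_zero h1
      · ext l
        rw [Matrix.vecMul_sub, Pi.sub_apply, Matrix.scalar_apply, Matrix.vecMul_diagonal]
        have h2 := hs s.1 s.2.succ l
        have h3 : (((fun m => Tg k s.1 m) ᵥ* DF (par (Tg k)) s.2.succ) l) =
            ∑ m, Tg k s.1 m * DF (par (Tg k)) s.2.succ m l := rfl
        rw [h3, ← h2, Pi.zero_apply]
        ring
    have hint : IsIntegral A (Tg k s.1 s.2.succ) := by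
      refine ⟨(DF aA s.2.succ).charpoly, Matrix.charpoly_monic _, ?_⟩
      rw [← Polynomial.eval_map, ← Matrix.charpoly_map, hDF, Matrix.eval_charpoly]
      exact hdet
    exact hint.isAlgebraic
  have h2 := key.comp e.symm e.symm.injective
  have h3 : (par (Tg k) ∘ e) ∘ e.symm = par (Tg k) := by
    ext j
    simp
  rw [h3] at h2
  exact h2

end Pool.Agent.H115.QS.IND
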